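import Mathlib
import Pool.Agent.H.MP_8292e8_an.A

namespace Pool.Agent.Results.MP_8292e8_an.Square

/-- `T` is convex-cyclic: the convex hull of some orbit is dense. -/
def ConvexCyclic {𝕜 : Type*} [RCLike 𝕜] {X : Type*} [NormedAddCommGroup X] [NormedSpace 𝕜 X]
    [NormedSpace ℝ X] (T : X →L[𝕜] X) : Prop :=
  ∃ x : X, Dense (convexHull ℝ (Set.range fun n : ℕ => (T ^ n) x))

theorem result {𝕜 : Type*} [RCLike 𝕜] {X : Type*} [NormedAddCommGroup X] [NormedSpace 𝕜 X]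
    [NormedSpace ℝ X] [IsScalarTower ℝ 𝕜 X] [CompleteSpace X]
    [TopologicalSpace.SeparableSpace X] [Nontrivial X] :
    ∃ S : X →L[𝕜] X, ConvexCyclic S ∧ ¬ ConvexCyclic (S ^ 2) :=
  Pool.Agent.H.MP_8292e8_an.main

end Pool.Agent.Results.MP_8292e8_an.Square
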